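import Pool.Agent.Lib.MP_6bc78b_nt.MS.P1.Defs1

/-! Project GP (MP_6bc78b_nt): gaps between consecutive SIMPLE zeros, under RH.
All definitions shared by the modules. Paper proof: `Paper.md`. -/

set_option autoImplicit false

open Complex Filter Topology MeasureTheory ArithmeticFunction

namespace Pool.Agent.Lib.MP_6bc78b_nt.GP

open Pool.Agent.Lib.MP_6bc78b_nt.MS Pool.Agent.Lib.MP_6bc78b_nt.MS.P1

/-- The half plane `Re s > 1/2`. -/
def HP : Set ℂ := {s : ℂ | 1 / 2 < s.re}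

/-- `F = ζ'² / ζ`: simple poles exactly at the simple zeros (residue `ζ'(ρ)`), triple pole at 1. -/
noncomputable def FF (s : ℂ) : ℂ := deriv riemannZeta s ^ 2 / riemannZeta s

/-- `F₀ = ζ''/2 - A ζ' + B ζ`. -/
noncomputable def F0 (A B : ℝ) (s : ℂ) : ℂ :=
  deriv (deriv riemannZeta) s / 2 - A * deriv riemannZeta s + B * riemannZeta s

/-- `D = F - F₀`. -/
noncomputable def DF (A B : ℝ) (s : ℂ) : ℂ := FF s - F0 A B s

/-- `D` is an analytic version of `F - F₀` on `Re s > 1/2` (RH; `A`, `B` remove the pole at 1). -/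
def IsD (A B : ℝ) (D : ℂ → ℂ) : Prop :=
  DifferentiableOn ℂ D HP ∧ ∀ s ∈ HP, s ≠ 1 → D s = DF A B s

/-- Coefficients of `F`: `(Λ * log)(n)`. -/
noncomputable def cn (n : ℕ) : ℝ := (La * lg) n

/-- Coefficients of `D`: `(Λ * log)(n) - (log n)²/2 - A log n - B`. -/
noncomputable def bn (A B : ℝ) (n : ℕ) : ℝ :=
  if n = 0 then 0 else cn n - Real.log n ^ 2 / 2 - A * Real.log n - B

/-- `E(z) = ∑ b(n) e^{-nz}`, `Re z > 0`. -/
noncomputable def EE (A B : ℝ) (z : ℂ) : ℂ := ∑' n : ℕ, (bn A B n : ℂ) * Complex.exp (-(n * z))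

/-- `z'(u) = 2πi (e^{u - iδ} - 1)`. -/
noncomputable def zp (u δ : ℝ) : ℂ := 2 * Real.pi * I * (Complex.exp (u - δ * I) - 1)

/-- `ω(s) = Γ(s) (2π)^{-s} e^{-iπs/2} e^{iδs}`, i.e. `Γ(s) (2πi e^{-iδ})^{-s}`. -/
noncomputable def om0 (δ : ℝ) (s : ℂ) : ℂ :=
  Complex.Gamma s * (2 * Real.pi : ℂ) ^ (-s) * Complex.exp (-(Real.pi / 2 * I * s) + δ * I * s)

/-- The Gaussian window `e^{(s - 1/2 - it)²/(2H²)}`. -/
noncomputable def GH (H t : ℝ) (s : ℂ) : ℂ :=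
  Complex.exp ((s - 1 / 2 - t * I) ^ 2 / (2 * (H : ℂ) ^ 2))

/-- The density of the `u`-integral. -/
noncomputable def hu (A B δ H u : ℝ) : ℂ :=
  ((H / Real.sqrt (2 * Real.pi) * Real.exp (-(H ^ 2 * u ^ 2) / 2 + u / 2) : ℝ) : ℂ) *
    EE A B (zp u δ)

/-- `S_E(t)`. -/
noncomputable def SE (A B δ H t : ℝ) : ℂ := ∫ u : ℝ, hu A B δ H u * Complex.exp (u * t * I)

/-- The sum over the zeros (only the simple zeros contribute). -/
noncomputable def SS (T δ H t : ℝ) : ℂ :=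
  ∑ᶠ γ ∈ {γ : ℝ | T / 2 < γ ∧ γ < 4 * T ∧ riemannZeta (1 / 2 + γ * I) = 0},
    (mz γ : ℂ) * deriv riemannZeta (1 / 2 + γ * I) * om0 δ (1 / 2 + γ * I) * GH H t (1 / 2 + γ * I)

/-- The left line `Re s = -1/2`. -/
noncomputable def IL (A B T δ H t : ℝ) : ℂ :=
  (1 / (2 * Real.pi) : ℂ) * ∫ y in (T / 2)..(4 * T),
    DF A B (-(1 / 2) + y * I) * om0 δ (-(1 / 2) + y * I) * GH H t (-(1 / 2) + y * I)

/-- `c = 1/2 + 1/log T`. -/
noncomputable def cT (T : ℝ) : ℝ := 1 / 2 + 1 / Real.log T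

end Pool.Agent.Lib.MP_6bc78b_nt.GP
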