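import Pool.Agent.Lib.MP_6bc78b_nt.GP.Iface

/-! Project GP, module GSL (helper74): Gaussian average of a slowly varying function against an
oscillation. -/

set_option autoImplicit false

open Complex Filter Topology MeasureTheory Set

namespace Pool.Agent.Lib.MP_6bc78b_nt.GP.GSL

/-- the Gaussian -/
noncomputable def G (H t y : ℝ) : ℝ := Real.exp (-((y - t) ^ 2 / (2 * H ^ 2)))

lemma G_pos (H t y : ℝ) : 0 < G H t y := Real.exp_pos _

lemma G_cont (H t : ℝ) : Continuous (G H t) := by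
  unfold G
  fun_prop

lemma G_le_one (H t y : ℝ) : G H t y ≤ 1 := by
  unfold G
  rw [Real.exp_le_one_iff, neg_nonpos]
  positivity

lemma G_hasDeriv {H : ℝ} (hH : 0 < H) (t y : ℝ) :
    HasDerivAt (fun y => -(H ^ 2 * G H t y)) ((y - t) * G H t y) y := by
  unfold G
  have h1 : HasDerivAt (fun y : ℝ => -((y - t) ^ 2 / (2 * H ^ 2))) (-((y - t) / H ^ 2)) y := by
    have h := (((hasDerivAt_id y).sub_const t).pow 2).div_const (2 * H ^ 2)
    have h' := h.neg
    refine h'.congr_deriv ?_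
    simp only [id_eq]
    have : H ≠ 0 := hH.ne'
    field_simp
    norm_num
    ring
  have h2 := (h1.exp.const_mul (H ^ 2)).neg
  refine h2.congr_deriv ?_
  have : H ≠ 0 := hH.ne'
  field_simp

lemma G_integrable {H : ℝ} (hH : 0 < H) (t : ℝ) : Integrable (G H t) := by
  have h := (integrable_exp_neg_mul_sq (b := 1 / (2 * H ^ 2)) (by positivity)).comp_sub_right t
  refine h.congr (Eventually.of_forall fun y => ?_)
  unfold G
  simp only
  congr 1
  ring

lemma G_tendsto {H : ℝ} (hH : 0 < H) (t : ℝ) :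
    Tendsto (fun y => -(H ^ 2 * G H t y)) atTop (𝓝 0) := by
  have h1 : Tendsto (fun y : ℝ => (y - t) ^ 2 / (2 * H ^ 2)) atTop atTop := by
    apply Tendsto.atTop_div_const (by positivity)
    exact (tendsto_pow_atTop (by norm_num)).comp (tendsto_atTop_add_const_right _ (-t) tendsto_id)
  have h2 : Tendsto (G H t) atTop (𝓝 0) :=
    Real.tendsto_exp_atBot.comp (tendsto_neg_atTop_atBot.comp h1)
  have h3 := (h2.const_mul (H ^ 2)).neg
  simpa using h3

lemma tail {H : ℝ} (hH : 0 < H) {t b : ℝ} (h : t < b) :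
    ∫ y in Ioi b, G H t y ≤ H ^ 2 / (b - t) * Real.exp (-((b - t) ^ 2 / (2 * H ^ 2))) := by
  have hbt : 0 < b - t := by linarith
  have h1 : ∀ y ∈ Ici b, HasDerivAt (fun y => -(H ^ 2 * G H t y)) ((y - t) * G H t y) y :=
    fun y _ => G_hasDeriv hH t y
  have h2 : ∀ y ∈ Ioi b, 0 ≤ (y - t) * G H t y := fun y hy => by
    have : b < y := hy
    exact mul_nonneg (by linarith) (G_pos _ _ _).le
  have h3 := integral_Ioi_of_hasDerivAt_of_nonneg' h1 h2 (G_tendsto hH t)
  have h4 := integrableOn_Ioi_deriv_of_nonneg' h1 h2 (G_tendsto hH t)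
  have h5 : ∫ y in Ioi b, G H t y ≤ ∫ y in Ioi b, (1 / (b - t)) * ((y - t) * G H t y) := by
    apply setIntegral_mono_on (G_integrable hH t).integrableOn (h4.const_mul _) measurableSet_Ioi
    intro y hy
    have hy' : b < y := hy
    have e : (1 / (b - t)) * ((y - t) * G H t y) = ((y - t) / (b - t)) * G H t y := by ring
    rw [e]
    have : 1 ≤ (y - t) / (b - t) := by
      rw [le_div_iff₀ hbt]; linarith
    have := G_pos H t y
    nlinarith
  refine h5.trans (le_of_eq ?_)
  rw [integral_const_mul, h3]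
  unfold G
  ring

lemma tail_left {H : ℝ} (hH : 0 < H) {t a : ℝ} (h : a < t) :
    ∫ y in Iic a, G H t y ≤ H ^ 2 / (t - a) * Real.exp (-((t - a) ^ 2 / (2 * H ^ 2))) := by
  have h1 := tail hH (t := -t) (b := -a) (by linarith)
  have h2 : ∫ y in Iic a, G H t y = ∫ y in Ioi (-a), G H (-t) y := by
    rw [← integral_comp_neg_Iic]
    congr 1
    funext y
    unfold G
    congr 2
    ring
  rw [h2]
  refine h1.trans (le_of_eq ?_)
  have e : -a - -t = t - a := by ring
  rw [e]

lemma moment_right {H : ℝ} (hH : 0 < H) {t b : ℝ} (h : t ≤ b) :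
    ∫ y in t..b, |y - t| * G H t y ≤ H ^ 2 := by
  have h1 : ∫ y in t..b, |y - t| * G H t y = ∫ y in t..b, (y - t) * G H t y := by
    apply intervalIntegral.integral_congr
    intro y hy
    rw [uIcc_of_le h] at hy
    simp only
    rw [abs_of_nonneg (by linarith [hy.1])]
  rw [h1, intervalIntegral.integral_eq_sub_of_hasDerivAt (f := fun y => -(H ^ 2 * G H t y))
    (fun y _ => G_hasDeriv hH t y)
    ((by have := G_cont H t; fun_prop : Continuous fun y => (y - t) * G H t y).intervalIntegrable _ _)]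
  have h2 : G H t t = 1 := by simp [G]
  rw [h2]
  have := G_pos H t b
  nlinarith [sq_nonneg H, mul_pos (pow_pos hH 2) this]

lemma moment_left {H : ℝ} (hH : 0 < H) {t a : ℝ} (h : a ≤ t) :
    ∫ y in a..t, |y - t| * G H t y ≤ H ^ 2 := by
  have h1 : ∫ y in a..t, |y - t| * G H t y = -∫ y in a..t, (y - t) * G H t y := by
    rw [← intervalIntegral.integral_neg]
    apply intervalIntegral.integral_congr
    intro y hy
    rw [uIcc_of_le h] at hy
    simp only
    rw [abs_of_nonpos (by linarith [hy.2])]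
    ring
  rw [h1, intervalIntegral.integral_eq_sub_of_hasDerivAt (f := fun y => -(H ^ 2 * G H t y))
    (fun y _ => G_hasDeriv hH t y)
    ((by have := G_cont H t; fun_prop : Continuous fun y => (y - t) * G H t y).intervalIntegrable _ _)]
  have h2 : G H t t = 1 := by simp [G]
  rw [h2]
  have := G_pos H t a
  nlinarith [sq_nonneg H, mul_pos (pow_pos hH 2) this]

lemma moment {H : ℝ} (hH : 0 < H) {t a b : ℝ} (h1 : a ≤ t) (h2 : t ≤ b) :
    ∫ y in a..b, |y - t| * G H t y ≤ 2 * H ^ 2 := by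
  have hc : Continuous fun y => |y - t| * G H t y := by
    have := G_cont H t
    fun_prop
  rw [← intervalIntegral.integral_add_adjacent_intervals (hc.intervalIntegrable a t)
    (hc.intervalIntegrable t b)]
  have := moment_left hH h1
  have := moment_right hH h2
  linarith

/-- the kernel -/
noncomputable def kk (H t y : ℝ) : ℂ :=
  Complex.exp ((-1 + (y - t) * I) ^ 2 / (2 * (H : ℂ) ^ 2))

lemma norm_kk (H t y : ℝ) :
    ‖kk H t y‖ = Real.exp (1 / (2 * H ^ 2)) * G H t y := by
  unfold kk G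
  rw [Complex.norm_exp, ← Real.exp_add]
  congr 1
  have h : (-1 + ((y : ℂ) - t) * I) ^ 2 / (2 * (H : ℂ) ^ 2) =
      ((1 / (2 * H ^ 2) + -((y - t) ^ 2 / (2 * H ^ 2)) : ℝ) : ℂ) +
        ((-2 * (y - t) / (2 * H ^ 2) : ℝ) : ℂ) * I := by
    push_cast
    have hI : I ^ 2 = -1 := Complex.I_sq
    linear_combination ((y - t : ℂ) ^ 2 / (2 * (H : ℂ) ^ 2)) * hI
  rw [h, Complex.add_re, Complex.re_ofReal_mul, Complex.ofReal_re, Complex.I_re, mul_zero, add_zero]

lemma norm_kk_le {H : ℝ} (hH : 1 ≤ H) (t y : ℝ) : ‖kk H t y‖ ≤ 3 * G H t y := by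
  rw [norm_kk]
  refine mul_le_mul_of_nonneg_right ?_ (G_pos _ _ _).le
  have h1 : 1 / (2 * H ^ 2) ≤ 1 := by
    rw [div_le_one (by positivity)]
    nlinarith
  exact (Real.exp_le_exp.2 h1).trans Real.exp_one_lt_three.le

lemma kk_cont (H t : ℝ) : Continuous (kk H t) := by
  unfold kk
  fun_prop

lemma norm_osc (v y : ℝ) : ‖Complex.exp (y * v * I)‖ = 1 := by
  have : (y * v * I : ℂ) = ((y * v : ℝ) : ℂ) * I := by push_cast; ring
  rw [this, Complex.norm_exp_ofReal_mul_I]

/-- the full integrand -/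
noncomputable def FF0 (H t v y : ℝ) : ℂ := Complex.exp (y * v * I) * kk H t y

lemma FF0_cont (H t v : ℝ) : Continuous (FF0 H t v) := by
  unfold FF0
  have := kk_cont H t
  fun_prop

lemma norm_FF0 {H : ℝ} (hH : 1 ≤ H) (t v y : ℝ) : ‖FF0 H t v y‖ ≤ 3 * G H t y := by
  unfold FF0
  rw [norm_mul, norm_osc, one_mul]
  exact norm_kk_le hH t y

lemma FF0_int {H : ℝ} (hH : 1 ≤ H) (t v : ℝ) : Integrable (FF0 H t v) :=
  ((G_integrable (by linarith) t).const_mul 3).mono' (FF0_cont H t v).aestronglyMeasurable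
    (Eventually.of_forall fun y => norm_FF0 hH t v y)

lemma full {H : ℝ} (hH : 1 ≤ H) (t v : ℝ) : ∫ y : ℝ, FF0 H t v y =
    Complex.exp (t * v * I) * ((H * Real.sqrt (2 * Real.pi) : ℝ) : ℂ) *
      Complex.exp (v - H ^ 2 * v ^ 2 / 2) := by
  have hH0 : 0 < H := by linarith
  have hHc : (H : ℂ) ≠ 0 := by exact_mod_cast hH0.ne'
  have hpi := Real.pi_pos
  have e1 : ∀ y : ℝ, FF0 H t v y = Complex.exp (-(1 / (2 * (H : ℂ) ^ 2)) * (y : ℂ) ^ 2 +
      (v * I + (t - I) / (H : ℂ) ^ 2) * y + ((1 - t ^ 2 + 2 * t * I) / (2 * (H : ℂ) ^ 2))) := by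
    intro y
    unfold FF0 kk
    rw [← Complex.exp_add]
    congr 1
    have hI : I ^ 2 = -1 := Complex.I_sq
    linear_combination ((y - t : ℂ) ^ 2 / (2 * (H : ℂ) ^ 2)) * hI
  simp only [e1]
  rw [integral_cexp_quadratic (by
    have : (-(1 / (2 * (H : ℂ) ^ 2))) = ((-(1 / (2 * H ^ 2)) : ℝ) : ℂ) := by push_cast; rfl
    rw [this, Complex.ofReal_re]
    have : 0 < 1 / (2 * H ^ 2) := by positivity
    linarith)]
  have e2 : ((Real.pi : ℂ) / -(-(1 / (2 * (H : ℂ) ^ 2)))) ^ (1 / 2 : ℂ) =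
      ((H * Real.sqrt (2 * Real.pi) : ℝ) : ℂ) := by
    have h1 : ((Real.pi : ℂ) / -(-(1 / (2 * (H : ℂ) ^ 2)))) = ((H ^ 2 * (2 * Real.pi) : ℝ) : ℂ) := by
      push_cast
      field_simp
    have h2 : (1 / 2 : ℂ) = ((1 / 2 : ℝ) : ℂ) := by push_cast; rfl
    rw [h1, h2, ← Complex.ofReal_cpow (by positivity), ← Real.sqrt_eq_rpow,
      Real.sqrt_mul (by positivity), Real.sqrt_sq hH0.le]
  have e3 : (1 - (t : ℂ) ^ 2 + 2 * t * I) / (2 * (H : ℂ) ^ 2) -
      (v * I + (t - I) / (H : ℂ) ^ 2) ^ 2 / (4 * -(1 / (2 * (H : ℂ) ^ 2))) =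
      t * v * I + (v - H ^ 2 * v ^ 2 / 2) := by
    have hI : I ^ 2 = -1 := Complex.I_sq
    field_simp
    ring_nf
    rw [hI]
    ring
  rw [e2, e3, Complex.exp_add]
  ring

end GSL

open GSL in
/-- module GSL -/
theorem gsl : GSLStatement := by
  refine ⟨6, by norm_num, ?_⟩
  intro W a b t H M M' v hat htb hH hM hM' hW hWM hWL
  have hH0 : 0 < H := by linarith
  have hab : a ≤ b := by linarith
  have hWt : ‖W t‖ ≤ M := hWM t ⟨hat.le, htb.le⟩
  have e0 : ∀ y : ℝ, W y * Complex.exp (y * v * I) *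
      Complex.exp ((-1 + (y - t) * I) ^ 2 / (2 * (H : ℂ) ^ 2)) = W y * FF0 H t v y := by
    intro y
    unfold FF0 kk
    ring
  simp only [e0]
  have hWI : ContinuousOn W (uIcc a b) := by rwa [uIcc_of_le hab]
  have i1 : IntervalIntegrable (fun y => (W y - W t) * FF0 H t v y) volume a b :=
    ((hWI.sub continuousOn_const).mul (FF0_cont H t v).continuousOn).intervalIntegrable
  have i2 : IntervalIntegrable (fun y => W t * FF0 H t v y) volume a b :=
    (((FF0_cont H t v).continuousOn).const_smul (W t)).intervalIntegrable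
  have s1 : ∫ y in a..b, W y * FF0 H t v y =
      (∫ y in a..b, (W y - W t) * FF0 H t v y) + W t * ∫ y in a..b, FF0 H t v y := by
    rw [← intervalIntegral.integral_const_mul, ← intervalIntegral.integral_add i1 i2]
    apply intervalIntegral.integral_congr
    intro y _
    simp only
    ring
  have s2 : ∫ y in a..b, FF0 H t v y =
      (∫ y : ℝ, FF0 H t v y) - (∫ y in Iic a, FF0 H t v y) - ∫ y in Ioi b, FF0 H t v y := by
    have hI := FF0_int hH t v
    have h1 := intervalIntegral.integral_Iic_add_Ioi (b := a) hI.integrableOn hI.integrableOn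
    have h2 := intervalIntegral.integral_interval_add_Ioi (a := a) (b := b) hI.integrableOn
      hI.integrableOn
    rw [← h1, ← h2]
    ring
  have b1 : ‖∫ y in a..b, (W y - W t) * FF0 H t v y‖ ≤ 6 * (M' * H ^ 2) := by
    have hc : Continuous fun y => |y - t| * G H t y := by
      have := G_cont H t
      fun_prop
    have h1 : ‖∫ y in a..b, (W y - W t) * FF0 H t v y‖ ≤
        ∫ y in a..b, 3 * M' * (|y - t| * G H t y) := by
      apply intervalIntegral.norm_integral_le_of_norm_le hab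
      · refine Eventually.of_forall fun y hy => ?_
        rw [norm_mul]
        have h3 := hWL y ⟨hy.1.le, hy.2⟩
        have h4 := norm_FF0 hH t v y
        calc _ ≤ (M' * |y - t|) * (3 * G H t y) :=
              mul_le_mul h3 h4 (norm_nonneg _) (by positivity)
          _ = 3 * M' * (|y - t| * G H t y) := by ring
      · exact (hc.const_mul _).intervalIntegrable _ _
    refine h1.trans ?_
    rw [intervalIntegral.integral_const_mul]
    have := moment hH0 hat.le htb.le
    have h5 : 0 ≤ 3 * M' := by positivity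
    calc _ ≤ 3 * M' * (2 * H ^ 2) := mul_le_mul_of_nonneg_left this h5
      _ = _ := by ring
  have b2 : ‖∫ y in Iic a, FF0 H t v y‖ ≤
      3 * (H ^ 2 / (t - a) * Real.exp (-((t - a) ^ 2 / (2 * H ^ 2)))) := by
    refine (norm_integral_le_of_norm_le (g := fun y => 3 * G H t y)
      ((G_integrable hH0 t).const_mul 3).integrableOn
      (Eventually.of_forall fun y => norm_FF0 hH t v y)).trans ?_
    rw [integral_const_mul]
    exact mul_le_mul_of_nonneg_left (tail_left hH0 hat) (by norm_num)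
  have b3 : ‖∫ y in Ioi b, FF0 H t v y‖ ≤
      3 * (H ^ 2 / (b - t) * Real.exp (-((b - t) ^ 2 / (2 * H ^ 2)))) := by
    refine (norm_integral_le_of_norm_le (g := fun y => 3 * G H t y)
      ((G_integrable hH0 t).const_mul 3).integrableOn
      (Eventually.of_forall fun y => norm_FF0 hH t v y)).trans ?_
    rw [integral_const_mul]
    exact mul_le_mul_of_nonneg_left (tail hH0 htb) (by norm_num)
  rw [s1, s2, full hH]
  set TA := H ^ 2 / (t - a) * Real.exp (-((t - a) ^ 2 / (2 * H ^ 2))) with hTA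
  set TB := H ^ 2 / (b - t) * Real.exp (-((b - t) ^ 2 / (2 * H ^ 2))) with hTB
  have pA : 0 ≤ TA := by
    have : 0 < t - a := by linarith
    positivity
  have pB : 0 ≤ TB := by
    have : 0 < b - t := by linarith
    positivity
  have e5 : (∫ y in a..b, (W y - W t) * FF0 H t v y) +
      W t * (Complex.exp (t * v * I) * ((H * Real.sqrt (2 * Real.pi) : ℝ) : ℂ) *
      Complex.exp (v - H ^ 2 * v ^ 2 / 2) - (∫ y in Iic a, FF0 H t v y) -
        ∫ y in Ioi b, FF0 H t v y) -
      W t * Complex.exp (t * v * I) * ((H * Real.sqrt (2 * Real.pi) : ℝ) : ℂ) *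
        Complex.exp (v - H ^ 2 * v ^ 2 / 2) =
      (∫ y in a..b, (W y - W t) * FF0 H t v y) - W t * ((∫ y in Iic a, FF0 H t v y) +
        ∫ y in Ioi b, FF0 H t v y) := by ring
  rw [e5]
  have b4 : ‖W t * ((∫ y in Iic a, FF0 H t v y) + ∫ y in Ioi b, FF0 H t v y)‖ ≤
      M * (3 * TA + 3 * TB) := by
    rw [norm_mul]
    exact mul_le_mul hWt ((norm_add_le _ _).trans (add_le_add b2 b3)) (norm_nonneg _) hM
  refine (norm_sub_le _ _).trans ((add_le_add b1 b4).trans ?_)
  nlinarith [mul_nonneg hM pA, mul_nonneg hM pB]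

end Pool.Agent.Lib.MP_6bc78b_nt.GP
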