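import Pool.Agent.Lib.MP_6bc78b_nt.GP.Iface
import Pool.Agent.Lib.MP_6bc78b_nt.MS.P1.OML

/-! Project GP, module OMD (helper74): `ω`, `ω'`, `ω''` at `3/2 - iy`. -/

set_option autoImplicit false

open Complex Filter Topology MeasureTheory ArithmeticFunction Set

namespace Pool.Agent.Lib.MP_6bc78b_nt.GP.OMD

open Pool.Agent.Lib.MP_6bc78b_nt.MS Pool.Agent.Lib.MP_6bc78b_nt.MS.P1
open Pool.Agent.Lib.MP_6bc78b_nt.MS.P1.OML (om_conj deriv_om_conj UU UU_open om_diffOn om_diffAt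
  upper_mem)

/-- the constant -/
noncomputable def K : ℂ := -(Real.log (2 * Real.pi) : ℂ) - (Real.pi / 2) * I

/-- `ω(z) - log z - K` -/
noncomputable def gg (z : ℂ) : ℂ := om z - Complex.log z - K

/-- the open upper right quadrant -/
def QQ : Set ℂ := {z : ℂ | 0 < z.re ∧ 0 < z.im}

lemma QQ_open : IsOpen QQ :=
  (isOpen_lt continuous_const Complex.continuous_re).inter
    (isOpen_lt continuous_const Complex.continuous_im)

lemma QQ_UU {z : ℂ} (hz : z ∈ QQ) : z ∈ UU := upper_mem hz.1 hz.2.ne'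

lemma QQ_slit {z : ℂ} (hz : z ∈ QQ) : z ∈ slitPlane := Or.inr hz.2.ne'

lemma gg_diff : DifferentiableOn ℂ gg QQ := by
  intro z hz
  refine DifferentiableAt.differentiableWithinAt ?_
  exact ((om_diffAt (QQ_UU hz)).sub (Complex.differentiableAt_log (QQ_slit hz))).sub_const K

lemma gg'_diff : DifferentiableOn ℂ (deriv gg) QQ := gg_diff.deriv QQ_open

/-- Cauchy's estimate on a disc of radius `1/4`. -/
lemma cauchy {F : ℂ → ℂ} (hF : DifferentiableOn ℂ F QQ) {s : ℂ} {M : ℝ}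
    (hs : Metric.closedBall s (1 / 4) ⊆ QQ) (hM : ∀ z ∈ Metric.closedBall s (1 / 4), ‖F z‖ ≤ M) :
    ‖deriv F s‖ ≤ 4 * M := by
  have hcl : DiffContOnCl ℂ F (Metric.ball s (1 / 4)) := by
    constructor
    · exact hF.mono (Metric.ball_subset_closedBall.trans hs)
    · rw [closure_ball s (by norm_num)]
      exact (hF.mono hs).continuousOn
  have hd := Complex.norm_deriv_le_of_forall_mem_sphere_norm_le (by norm_num) hcl
    (fun z hz => hM z (Metric.sphere_subset_closedBall hz))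
  refine hd.trans (le_of_eq ?_)
  ring

lemma ball_bounds {s z : ℂ} (hz : z ∈ Metric.closedBall s (1 / 4)) :
    s.re - 1 / 4 ≤ z.re ∧ z.re ≤ s.re + 1 / 4 ∧ s.im - 1 / 4 ≤ z.im := by
  rw [Metric.mem_closedBall, dist_eq_norm] at hz
  have e1 := (Complex.abs_re_le_norm (z - s)).trans hz
  have e2 := (Complex.abs_im_le_norm (z - s)).trans hz
  rw [Complex.sub_re] at e1
  rw [Complex.sub_im] at e2
  rw [abs_le] at e1 e2
  exact ⟨by linarith [e1.1], by linarith [e1.2], by linarith [e2.1]⟩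

section

variable {C : ℝ} (hC0 : 0 < C) (hC : ∀ s : ℂ, 0 < s.re → s.re ≤ 2 → 1 ≤ s.im →
    ‖om s - (Real.log (s.im / (2 * Real.pi)) : ℂ)‖ ≤ C / s.im)

include hC in
lemma gg_bound {z : ℂ} (h1 : 0 < z.re) (h2 : z.re ≤ 2) (h3 : 1 ≤ z.im) :
    ‖gg z‖ ≤ (C + 2) / z.im := by
  have hpi := Real.pi_pos
  have b1 := hC z h1 h2 h3
  have b2 := CHO.log_bound h1 h2 h3
  have hz0 : 0 < z.im := by linarith
  have hlog : (Real.log (z.im / (2 * Real.pi)) : ℂ) = (Real.log z.im : ℂ) -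
      (Real.log (2 * Real.pi) : ℂ) := by
    rw [Real.log_div hz0.ne' (by positivity)]
    push_cast
    rfl
  have e : gg z = (om z - (Real.log (z.im / (2 * Real.pi)) : ℂ)) -
      (Complex.log z - ((Real.log z.im : ℂ) + (Real.pi / 2) * I)) := by
    rw [hlog]; unfold gg K; ring
  rw [e]
  calc _ ≤ C / z.im + 2 / z.im := (norm_sub_le _ _).trans (add_le_add b1 b2)
    _ = (C + 2) / z.im := by ring

include hC0 hC in
lemma gg'_bound {z : ℂ} (h1 : 3 / 4 ≤ z.re) (h2 : z.re ≤ 7 / 4) (h3 : 5 / 4 ≤ z.im) :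
    ‖deriv gg z‖ ≤ 4 * ((C + 2) / (z.im - 1 / 4)) := by
  refine cauchy gg_diff ?_ ?_
  · intro w hw
    obtain ⟨a1, a2, a3⟩ := ball_bounds hw
    exact ⟨by linarith, by linarith⟩
  · intro w hw
    obtain ⟨a1, a2, a3⟩ := ball_bounds hw
    refine (gg_bound hC (by linarith) (by linarith) (by linarith)).trans ?_
    exact div_le_div_of_nonneg_left (by linarith) (by linarith) a3

include hC0 hC in
lemma gg''_bound {z : ℂ} (h1 : 1 ≤ z.re) (h2 : z.re ≤ 3 / 2) (h3 : 3 / 2 ≤ z.im) :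
    ‖deriv (deriv gg) z‖ ≤ 4 * (4 * ((C + 2) / (z.im - 1 / 2))) := by
  refine cauchy gg'_diff ?_ ?_
  · intro w hw
    obtain ⟨a1, a2, a3⟩ := ball_bounds hw
    exact ⟨by linarith, by linarith⟩
  · intro w hw
    obtain ⟨a1, a2, a3⟩ := ball_bounds hw
    refine (gg'_bound hC0 hC (by linarith) (by linarith) (by linarith)).trans ?_
    have := div_le_div_of_nonneg_left (a := C + 2) (b := w.im - 1 / 4) (c := z.im - 1 / 2)
      (by linarith) (by linarith) (by linarith)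
    linarith

end

lemma om'_eq {z : ℂ} (hz : z ∈ QQ) : deriv om z = deriv gg z + z⁻¹ := by
  have e : HasDerivAt gg (deriv om z - z⁻¹) z :=
    ((om_diffAt (QQ_UU hz)).hasDerivAt.sub (Complex.hasDerivAt_log (QQ_slit hz))).sub_const K
  rw [e.deriv]; ring

lemma om''_eq {z : ℂ} (hz : z ∈ QQ) : deriv (deriv om) z = deriv (deriv gg) z - (z ^ 2)⁻¹ := by
  have h1 : deriv om =ᶠ[𝓝 z] fun w => deriv gg w + w⁻¹ := by
    filter_upwards [QQ_open.mem_nhds hz] with w hw
    exact om'_eq hw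
  rw [h1.deriv_eq]
  have h2 : DifferentiableAt ℂ (deriv gg) z := gg'_diff.differentiableAt (QQ_open.mem_nhds hz)
  have hz0 : z ≠ 0 := by
    rintro rfl
    have := hz.1
    simp at this
  have h3 : HasDerivAt (fun w => deriv gg w + w⁻¹) (deriv (deriv gg) z + -(z ^ 2)⁻¹) z :=
    h2.hasDerivAt.add (hasDerivAt_inv hz0)
  rw [h3.deriv]; ring

lemma om''_conj (s : ℂ) : deriv (deriv om) (starRingEnd ℂ s) =
    starRingEnd ℂ (deriv (deriv om) s) := by
  have h : (⇑(starRingEnd ℂ) ∘ (deriv om) ∘ ⇑(starRingEnd ℂ)) = deriv om := by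
    funext z
    simp only [Function.comp_apply]
    rw [deriv_om_conj, Complex.conj_conj]
  have h2 := deriv_conj_conj (f := deriv om)
  rw [h] at h2
  have h3 := congrFun h2 (starRingEnd ℂ s)
  simpa using h3

end OMD

open OMD in
open Pool.Agent.Lib.MP_6bc78b_nt.MS Pool.Agent.Lib.MP_6bc78b_nt.MS.P1 in
open Pool.Agent.Lib.MP_6bc78b_nt.MS.P1.OML (om_conj deriv_om_conj UU UU_open om_diffOn om_diffAt
  upper_mem) in
/-- module OMD -/
theorem omd : OMDStatement := by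
  obtain ⟨C, hC0, hC⟩ := CHO.cho
  -- compact part
  have hline : ∀ y : ℝ, 0 < y → ((3 / 2 : ℝ) + y * I : ℂ) ∈ QQ := fun y hy => by
    refine ⟨?_, ?_⟩
    · simp
    · simpa using hy
  have hc1 : ContinuousOn (fun y : ℝ => ‖deriv om ((3 / 2 : ℝ) + y * I)‖) (Icc 1 2) := by
    apply ContinuousOn.norm
    refine (om_diffOn.deriv UU_open).continuousOn.comp (t := UU) ?_ ?_
    · fun_prop
    · intro y hy
      exact QQ_UU (hline y (by linarith [hy.1]))
  have hc2 : ContinuousOn (fun y : ℝ => ‖deriv (deriv om) ((3 / 2 : ℝ) + y * I)‖) (Icc 1 2) := by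
    apply ContinuousOn.norm
    refine ((om_diffOn.deriv UU_open).deriv UU_open).continuousOn.comp (t := UU) ?_ ?_
    · fun_prop
    · intro y hy
      exact QQ_UU (hline y (by linarith [hy.1]))
  obtain ⟨C1, hC1⟩ := isCompact_Icc.bddAbove_image hc1
  obtain ⟨C2, hC2⟩ := isCompact_Icc.bddAbove_image hc2
  have k1 : ∀ y ∈ Icc (1 : ℝ) 2, ‖deriv om ((3 / 2 : ℝ) + y * I)‖ ≤ |C1| := fun y hy =>
    (hC1 (mem_image_of_mem _ hy)).trans (le_abs_self _)
  have k2 : ∀ y ∈ Icc (1 : ℝ) 2, ‖deriv (deriv om) ((3 / 2 : ℝ) + y * I)‖ ≤ |C2| := fun y hy =>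
    (hC2 (mem_image_of_mem _ hy)).trans (le_abs_self _)
  have a1 := abs_nonneg C1
  have a2 := abs_nonneg C2
  have hre : ∀ y : ℝ, (((3 / 2 : ℝ) : ℂ) + y * I).re = 3 / 2 := fun y => by simp
  have him : ∀ y : ℝ, (((3 / 2 : ℝ) : ℂ) + y * I).im = y := fun y => by simp
  have hconj : ∀ y : ℝ, (((3 / 2 : ℝ) : ℂ) - y * I) = starRingEnd ℂ (((3 / 2 : ℝ) : ℂ) + y * I) := by
    intro y
    rw [map_add, map_mul, Complex.conj_I, Complex.conj_ofReal, Complex.conj_ofReal]
    ring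
  have hnorm : ∀ y : ℝ, 1 ≤ y → y ≤ ‖((3 / 2 : ℝ) : ℂ) + y * I‖ := by
    intro y hy
    calc y = (((3 / 2 : ℝ) : ℂ) + y * I).im := (him y).symm
      _ ≤ |(((3 / 2 : ℝ) : ℂ) + y * I).im| := le_abs_self _
      _ ≤ _ := Complex.abs_im_le_norm _
  refine ⟨C + (4 * (C + 2) * 2 + 1) + (16 * (C + 2) * 2 + 1) + 2 * |C1| + 2 * |C2|,
    by positivity, fun y hy => ?_⟩
  have hy0 : 0 < y := by linarith
  refine ⟨?_, ?_, ?_⟩
  · rw [hconj, om_conj]
    obtain ⟨l, hl⟩ : ∃ l : ℝ, l = Real.log (y / (2 * Real.pi)) := ⟨_, rfl⟩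
    have e : ∀ w : ℂ, starRingEnd ℂ w - (l : ℂ) = starRingEnd ℂ (w - (l : ℂ)) := by
      intro w
      rw [map_sub, Complex.conj_ofReal]
    rw [← hl, e, RCLike.norm_conj, hl]
    have := hC (((3 / 2 : ℝ) : ℂ) + y * I) (by rw [hre]; norm_num) (by rw [hre]; norm_num)
      (by rw [him]; exact hy)
    rw [him] at this
    refine this.trans (div_le_div_of_nonneg_right ?_ hy0.le)
    nlinarith
  · rw [hconj, deriv_om_conj, RCLike.norm_conj]
    rcases le_total y 2 with h2 | h2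
    · refine (k1 y ⟨hy, h2⟩).trans ?_
      rw [le_div_iff₀ hy0]
      nlinarith
    · rw [om'_eq (hline y hy0)]
      have b := gg'_bound hC0 hC (z := ((3 / 2 : ℝ) : ℂ) + y * I) (by rw [hre]; norm_num)
        (by rw [hre]; norm_num) (by rw [him]; linarith)
      rw [him] at b
      have b2 : ‖(((3 / 2 : ℝ) : ℂ) + y * I)⁻¹‖ ≤ 1 / y := by
        rw [norm_inv, ← one_div]
        exact one_div_le_one_div_of_le hy0 (hnorm y hy)
      have b3 : (C + 2) / (y - 1 / 4) ≤ (C + 2) * 2 / y := by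
        rw [div_le_div_iff₀ (by linarith) hy0]
        nlinarith
      have b4 : (4 * (C + 2) * 2 + 1) / y ≤
          (C + (4 * (C + 2) * 2 + 1) + (16 * (C + 2) * 2 + 1) + 2 * |C1| + 2 * |C2|) / y :=
        div_le_div_of_nonneg_right (by nlinarith) hy0.le
      refine (norm_add_le _ _).trans (le_trans ?_ b4)
      calc _ ≤ 4 * ((C + 2) * 2 / y) + 1 / y := add_le_add (b.trans (by linarith)) b2
        _ = (4 * (C + 2) * 2 + 1) / y := by ring
  · rw [hconj, om''_conj, RCLike.norm_conj]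
    rcases le_total y 2 with h2 | h2
    · refine (k2 y ⟨hy, h2⟩).trans ?_
      rw [le_div_iff₀ hy0]
      nlinarith
    · rw [om''_eq (hline y hy0)]
      have b := gg''_bound hC0 hC (z := ((3 / 2 : ℝ) : ℂ) + y * I) (by rw [hre]; norm_num)
        (by rw [hre]) (by rw [him]; linarith)
      rw [him] at b
      have b2 : ‖((((3 / 2 : ℝ) : ℂ) + y * I) ^ 2)⁻¹‖ ≤ 1 / y := by
        rw [norm_inv, ← one_div, norm_pow]
        apply one_div_le_one_div_of_le hy0
        have := hnorm y hy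
        nlinarith
      have b3 : (C + 2) / (y - 1 / 2) ≤ (C + 2) * 2 / y := by
        rw [div_le_div_iff₀ (by linarith) hy0]
        nlinarith
      have b4 : (16 * (C + 2) * 2 + 1) / y ≤
          (C + (4 * (C + 2) * 2 + 1) + (16 * (C + 2) * 2 + 1) + 2 * |C1| + 2 * |C2|) / y :=
        div_le_div_of_nonneg_right (by nlinarith) hy0.le
      refine (norm_sub_le _ _).trans (le_trans ?_ b4)
      calc _ ≤ 4 * (4 * ((C + 2) * 2 / y)) + 1 / y := add_le_add (b.trans (by linarith)) b2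
        _ = (16 * (C + 2) * 2 + 1) / y := by ring

end Pool.Agent.Lib.MP_6bc78b_nt.GP
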