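import Pool.Agent.Lib.MP_6bc78b_nt.GP.Defs

/-! Project GP: the statements of the modules (proofs: see `Paper.md`). -/

set_option autoImplicit false

open Complex Filter Topology MeasureTheory ArithmeticFunction Set
open scoped ENNReal

namespace Pool.Agent.Lib.MP_6bc78b_nt.GP

open Pool.Agent.Lib.MP_6bc78b_nt.MS Pool.Agent.Lib.MP_6bc78b_nt.MS.P1

/-! ## Group 1: the function `D` -/

/-- DX1: the pole at 1 is removed by suitable `A`, `B`. -/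
def DX1Statement : Prop := RiemannHypothesis → ∃ (A B : ℝ) (D : ℂ → ℂ), IsD A B D

/-- DX2: Dirichlet series and size of the coefficients. -/
def DX2Statement : Prop := ∀ A B : ℝ,
  (∀ s : ℂ, 1 < s.re → LSeries (fun n => ((bn A B n : ℝ) : ℂ)) s = DF A B s) ∧
  (∀ c : ℝ, 1 < c → Summable (fun n : ℕ => |bn A B n| * (n : ℝ) ^ (-c))) ∧
  (∃ C : ℝ, 0 < C ∧ ∀ n : ℕ, |bn A B n| ≤ C * (1 + Real.log n) ^ 2)

/-- RHB: `ζ'/ζ` to the right of the critical line. -/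
def RHBStatement : Prop := RiemannHypothesis → ∃ C : ℝ, 0 < C ∧ ∀ σ w : ℝ, 1 / 2 < σ → σ ≤ 3 / 4 →
  ‖logDeriv riemannZeta (σ + w * I)‖ ≤ C * Real.log (3 + |w|) / (σ - 1 / 2)

/-- GRW: polynomial growth of `D` in vertical strips (for moving lines). -/
def GRWStatement : Prop := RiemannHypothesis → ∀ (A B : ℝ) (D : ℂ → ℂ), IsD A B D →
  ∀ σ₀ : ℝ, 1 / 2 < σ₀ → ∃ C : ℝ, 0 < C ∧ ∀ s : ℂ, σ₀ ≤ s.re → s.re ≤ 2 →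
    ‖D s‖ ≤ C * (1 + |s.im|) ^ 4

/-- ZMS: second moment of `ζ` on vertical lines, exponential weight. -/
def ZMSStatement : Prop := ∃ C : ℝ, 0 < C ∧ ∀ σ κ : ℝ, 1 / 2 ≤ σ → σ ≤ 3 / 4 → 0 < κ → κ ≤ 1 →
  Integrable (fun w : ℝ => ‖riemannZeta (σ + w * I)‖ ^ 2 * Real.exp (-(κ * |w|))) ∧
  ∫ w : ℝ, ‖riemannZeta (σ + w * I)‖ ^ 2 * Real.exp (-(κ * |w|)) ≤ C * Real.log (3 / κ) / κ

/-- GAMB: the Gamma function on vertical lines. -/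
def GAMBStatement : Prop := ∃ C : ℝ, 0 < C ∧ ∀ σ w : ℝ, 1 / 2 ≤ σ → σ ≤ 2 →
  ‖Complex.Gamma (σ + w * I)‖ ≤ C * (1 + |w|) ^ (σ - 1 / 2) * Real.exp (-(Real.pi / 2 * |w|))

/-- GAMC: exact value on the critical line, `|ω(1/2 + iγ)| ≤ 1`, crude bounds for `ω`. -/
def GAMCStatement : Prop :=
  (∀ δ γ : ℝ, 0 ≤ δ → 0 ≤ γ → ‖om0 δ (1 / 2 + γ * I)‖ ≤ 1) ∧
  (∃ C : ℝ, 0 < C ∧ ∀ (δ : ℝ) (s : ℂ), 0 ≤ δ → δ ≤ 1 → -(1 / 2) ≤ s.re → s.re ≤ 3 / 2 →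
    1 ≤ |s.im| → ‖om0 δ s‖ ≤ C * (1 + |s.im|) ^ 2)

/-- DMS: second moment of `D Γ` on the line `Re s = 1/2 + 1/log T`; needs RHB, ZMS, GAMB. -/
def DMSStatement : Prop := RiemannHypothesis → ∀ (A B : ℝ) (D : ℂ → ℂ), IsD A B D →
  ∃ C T0 : ℝ, 0 < C ∧ 10 < T0 ∧ ∀ T κ φ : ℝ, T0 ≤ T → 1 / T ^ 2 ≤ κ → κ ≤ 1 →
    |φ| ≤ Real.pi / 2 - κ →
    Integrable (fun w : ℝ => ‖D (cT T + w * I) * Complex.Gamma (cT T + w * I)‖ ^ 2 *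
      Real.exp (2 * φ * w)) ∧
    ∫ w : ℝ, ‖D (cT T + w * I) * Complex.Gamma (cT T + w * I)‖ ^ 2 * Real.exp (2 * φ * w) ≤
      C * Real.log T ^ 7 / κ

/-! ## Group 2: Mellin, Plancherel, area -/

/-- GAMI: Mellin inversion for the exponential, complex argument. -/
def GAMIStatement : Prop := ∀ (c : ℝ) (z : ℂ), 0 < c → 0 < z.re →
  Integrable (fun t : ℝ => Complex.Gamma (c + t * I) * z ^ (-(c + t * I : ℂ))) ∧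
  Complex.exp (-z) = VI c (fun s => Complex.Gamma s * z ^ (-s))

/-- PLC: Plancherel inequality. -/
def PLCStatement : Prop := ∀ g : ℝ → ℂ, Integrable g →
  ∫⁻ x : ℝ, ENNReal.ofReal (‖∫ w : ℝ, g w * Complex.exp (x * w * I)‖ ^ 2) ≤
    ENNReal.ofReal (2 * Real.pi) * ∫⁻ w : ℝ, ENNReal.ofReal (‖g w‖ ^ 2)

/-- MEL: `E(z)` as a Mellin integral on any line `Re s = c`, `1/2 < c ≤ 3/2` (GAMI, DX2, GRW). -/
def MELStatement : Prop := RiemannHypothesis → ∀ (A B : ℝ) (D : ℂ → ℂ), IsD A B D →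
  ∀ (c : ℝ) (z : ℂ), 1 / 2 < c → c ≤ 3 / 2 → 0 < z.re →
    Integrable (fun t : ℝ => D (c + t * I) * Complex.Gamma (c + t * I) * z ^ (-(c + t * I : ℂ))) ∧
    EE A B z = VI c (fun s => D s * Complex.Gamma s * z ^ (-s))

/-- RAY: second moment of `E` on a ray (MEL, PLC, DMS). -/
def RAYStatement : Prop := RiemannHypothesis → ∀ (A B : ℝ) (D : ℂ → ℂ), IsD A B D →
  ∃ C T0 : ℝ, 0 < C ∧ 10 < T0 ∧ ∀ T κ φ : ℝ, T0 ≤ T → 1 / T ^ 2 ≤ κ → κ ≤ 1 →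
    |φ| ≤ Real.pi / 2 - κ →
    ∫⁻ r in Ioi (0 : ℝ), ENNReal.ofReal (‖EE A B (r * Complex.exp (φ * I))‖ ^ 2 *
      r ^ (2 * cT T - 1)) ≤ ENNReal.ofReal (C * Real.log T ^ 7 / κ)

/-- ETR: trivial bound for `E(z'(u))`, measurability. -/
def ETRStatement : Prop := ∀ A B : ℝ,
  (∀ δ : ℝ, 0 < δ → δ < 1 → Continuous (fun u : ℝ => EE A B (zp u δ))) ∧
  (∃ C : ℝ, 0 < C ∧ ∀ u δ : ℝ, 0 < δ → δ ≤ 1 / 2 →
    ‖EE A B (zp u δ)‖ ≤ C * Real.exp (2 * |u|) / δ ^ 2)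

/-- ARE: the area integral in the `z`-plane, in polar coordinates (RAY). `η = 1/T`. -/
def AREStatement : Prop := RiemannHypothesis → ∀ (A B : ℝ) (D : ℂ → ℂ), IsD A B D →
  ∀ a b R κ₀ : ℝ, 0 < a → a < b → 0 < R → 0 < κ₀ →
  ∃ C T0 : ℝ, 0 < C ∧ 10 < T0 ∧ ∀ T H : ℝ, T0 ≤ T → 1 ≤ H → H ≤ T →
    ∫⁻ z in {z : ℂ | a / T ≤ z.re ∧ z.re ≤ b / T ∧ |z.im| ≤ R},
      ENNReal.ofReal (‖EE A B z‖ ^ 2 * Real.exp (-(κ₀ * H ^ 2 * z.im ^ 2))) ≤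
      ENNReal.ofReal (C * Real.log T ^ 7 / H)

/-- CHV: change of variables `(u, δ) ↦ z'(u, δ)` (injective, Jacobian `4π² e^{2u}`). -/
def CHVStatement : Prop := ∃ a b R κ₀ C : ℝ, 0 < a ∧ a < b ∧ 0 < R ∧ 0 < κ₀ ∧ 0 < C ∧
  ∀ (g : ℂ → ℝ≥0∞), Measurable g → ∀ T H : ℝ, 10 ≤ T → 1 ≤ H → H ≤ T →
    ∫⁻ δ in Icc (1 / T) (2 / T), ∫⁻ u in Icc (-(1 / 2) : ℝ) (1 / 2),
      g (zp u δ) * ENNReal.ofReal (Real.exp (-(H ^ 2 * u ^ 2) + u)) ≤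
    ENNReal.ofReal C * ∫⁻ z in {z : ℂ | a / T ≤ z.re ∧ z.re ≤ b / T ∧ |z.im| ≤ R},
      g z * ENNReal.ofReal (Real.exp (-(κ₀ * H ^ 2 * z.im ^ 2)))

/-- AVG: average over `δ` (ARE, CHV, ETR); a good `δ` exists. -/
def AVGStatement : Prop := RiemannHypothesis → ∀ (A B : ℝ) (D : ℂ → ℂ), IsD A B D →
  ∃ C T0 : ℝ, 0 < C ∧ 10 < T0 ∧ ∀ T H : ℝ, T0 ≤ T → 10 * Real.sqrt (Real.log T) ≤ H → H ≤ T →
    ∃ δ ∈ Icc (1 / T) (2 / T),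
      ∫⁻ u : ℝ, ENNReal.ofReal (‖EE A B (zp u δ)‖ ^ 2 * Real.exp (-(H ^ 2 * u ^ 2) + u)) ≤
        ENNReal.ofReal (C * T * Real.log T ^ 7 / H)

/-- PLT: Plancherel for `S_E` (PLC, ETR). -/
def PLTStatement : Prop := ∀ A B δ H : ℝ, 0 < δ → δ ≤ 1 / 2 → 0 < H →
  ∫⁻ t : ℝ, ENNReal.ofReal (‖SE A B δ H t‖ ^ 2) ≤ ENNReal.ofReal (H ^ 2) *
    ∫⁻ u : ℝ, ENNReal.ofReal (‖EE A B (zp u δ)‖ ^ 2 * Real.exp (-(H ^ 2 * u ^ 2) + u))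

/-! ## Group 3: the contour identity -/

/-- RGT: the right line is `S_E` (GAMI, DX2, Fubini, `e^{-nz} = e^{-nz'}`). -/
def RGTStatement : Prop := ∀ A B δ H t : ℝ, 0 < δ → δ ≤ 1 / 2 → 1 ≤ H →
  Integrable (fun y : ℝ => LSeries (fun n => ((bn A B n : ℝ) : ℂ)) ((3 / 2 : ℝ) + y * I) *
    om0 δ ((3 / 2 : ℝ) + y * I) * GH H t ((3 / 2 : ℝ) + y * I)) ∧
  SE A B δ H t = VI (3 / 2) (fun s => LSeries (fun n => ((bn A B n : ℝ) : ℂ)) s * om0 δ s * GH H t s)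

/-- CON: the contour identity, zeros in the box (RGT, good heights, `zeros_rect`). -/
def CONStatement : Prop := RiemannHypothesis → ∀ A B : ℝ, ∀ᶠ T : ℝ in atTop,
  ∀ t δ H : ℝ, T ≤ t → t ≤ 2 * T → 1 / T ≤ δ → δ ≤ 2 / T → 1 ≤ H → H ≤ T / Real.log T →
    ‖SE A B δ H t - IL A B T δ H t - SS T δ H t‖ ≤ 1

/-- FEQ: `D ω` on the left line, `s = 1 - s'`, `Re s' = 3/2`, `Im s' < 0`. -/
def FEQStatement : Prop := ∀ (A B δ : ℝ) (s : ℂ), 0 < s.re → s.im < 0 → riemannZeta s ≠ 0 →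
  DF A B (1 - s) * om0 δ (1 - s) = Complex.exp (δ * I * (1 - s)) /
      (1 + Complex.exp (Real.pi * I * (1 - s))) *
    ((om s ^ 2 / 2 - deriv om s / 2 - A * om s - B) * riemannZeta s +
      (om s - A) * deriv riemannZeta s + FF s - deriv (deriv riemannZeta) s / 2)

/-- GSL: Gaussian average of a slowly varying function against an oscillation. -/
def GSLStatement : Prop := ∃ C : ℝ, 0 < C ∧ ∀ (W : ℝ → ℂ) (a b t H M M' v : ℝ), a < t → t < b →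
  1 ≤ H → 0 ≤ M → 0 ≤ M' → ContinuousOn W (Icc a b) →
  (∀ y ∈ Icc a b, ‖W y‖ ≤ M) → (∀ y ∈ Icc a b, ‖W y - W t‖ ≤ M' * |y - t|) →
    ‖(∫ y in a..b, W y * Complex.exp (y * v * I) *
        Complex.exp ((-1 + (y - t) * I) ^ 2 / (2 * (H : ℂ) ^ 2))) -
      W t * Complex.exp (t * v * I) * ((H * Real.sqrt (2 * Real.pi) : ℝ) : ℂ) *
        Complex.exp (v - H ^ 2 * v ^ 2 / 2)‖ ≤
      C * (M' * H ^ 2 + M * (H ^ 2 / (t - a) * Real.exp (-((t - a) ^ 2 / (2 * H ^ 2))) +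
        H ^ 2 / (b - t) * Real.exp (-((b - t) ^ 2 / (2 * H ^ 2)))))

/-- OMD: `ω` and `ω'` for `Im s ≤ -1`, `Re s = 3/2` (conjugates of CHO, OML). -/
def OMDStatement : Prop := ∃ C : ℝ, 0 < C ∧ ∀ y : ℝ, 1 ≤ y →
  ‖om ((3 / 2 : ℝ) - y * I) - (Real.log (y / (2 * Real.pi)) : ℂ)‖ ≤ C / y ∧
  ‖deriv om ((3 / 2 : ℝ) - y * I)‖ ≤ C / y ∧ ‖deriv (deriv om) ((3 / 2 : ℝ) - y * I)‖ ≤ C / y

/-- LFT: lower bound for the left line (FEQ, GSL, OMD). -/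
def LFTStatement : Prop := ∀ A B : ℝ, ∃ c C1 T0 : ℝ, 0 < c ∧ 1 ≤ C1 ∧ 10 < T0 ∧
  ∀ T t δ H : ℝ, T0 ≤ T → T ≤ t → t ≤ 2 * T → 1 / T ≤ δ → δ ≤ 2 / T → C1 ≤ H →
    H ≤ T / Real.log T → c * H * Real.log T ^ 2 ≤ ‖IL A B T δ H t‖

/-- TLS: no simple zero near `t` makes the sum over zeros small (GAMC). -/
def TLSStatement : Prop := RiemannHypothesis → ∃ T0 : ℝ, 10 < T0 ∧ ∀ T t δ H : ℝ, T0 ≤ T →
  T ≤ t → t ≤ 2 * T → 1 / T ≤ δ → δ ≤ 2 / T → 1 ≤ H → H ≤ T / Real.log T →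
  (∀ γ : ℝ, |γ - t| < 5 * Real.sqrt (Real.log T) * H → mz γ ≠ 1) → ‖SS T δ H t‖ ≤ 1

/-! ## Group 4: assembly -/

/-- CHB: the measure of the centres without simple zeros nearby. -/
def CHBStatement : Prop := RiemannHypothesis → ∃ C T0 : ℝ, 0 < C ∧ 10 < T0 ∧ ∀ T H : ℝ, T0 ≤ T →
  10 * Real.sqrt (Real.log T) ≤ H → H ≤ T / Real.log T →
    volume {t : ℝ | T ≤ t ∧ t ≤ 2 * T ∧
      ∀ γ : ℝ, |γ - t| < 5 * Real.sqrt (Real.log T) * H → mz γ ≠ 1} ≤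
      ENNReal.ofReal (C * T * Real.log T ^ 3 / H)

/-- FIN: the theorem. -/
def GapStatement : Prop := RiemannHypothesis → ∃ C : ℝ, 0 < C ∧ ∀ T : ℝ, 2 ≤ T →
  ∀ (n : ℕ) (a b : Fin n → ℝ), (∀ i, 0 ≤ a i ∧ a i ≤ b i ∧ b i ≤ T) →
    (∀ i j, i ≠ j → Disjoint (Ioo (a i) (b i)) (Ioo (a j) (b j))) →
    (∀ i, ∀ γ ∈ Ioo (a i) (b i), zeroMult γ ≠ 1) →
      ∑ i, (b i - a i) ^ 2 ≤ C * T * Real.log T ^ 5

end Pool.Agent.Lib.MP_6bc78b_nt.GP
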